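import Mathlib
import Pool.Agent.Results.MP_0eabd7_lc.CountableLengthMA
import Pool.Agent.W910.FC.Collapse

set_option autoImplicit false

/-!
# MP_0eabd7_lc, Q2: it is consistent that no Boolean algebra with property (P) has a cardinal
sequence `⟨ℵ₁, ℵ₁, …, 1⟩` of countable length above one
-/

namespace Pool.Agent.Results.MP_0eabd7_lc.ConsistentlyNone

open Cardinal Pool.Agent.Helper669.Forcing Pool.Agent.W684.FM Pool.Agent.W876.Cut

/-- (1) There is a preordered set `P` of forcing conditions such that every condition forces that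
`ω₁` is preserved and that Martin's axiom for `ℵ₁` dense sets holds (`MartinHolds P Om1` is the
translation of `MartinFor Om1` into the forcing language). (2) `MartinFor Om1` is equivalent to the
plain form of Martin's axiom for `ℵ₁` dense sets. (3) The latter implies that for every countable
ordinal `α > 1` no Boolean algebra with property (P) has the cardinal sequence `⟨ℵ₁, ℵ₁, …, 1⟩` of
length `α`. -/
theorem result :
    (∃ (P : Type) (_ : Preorder P), Nonempty P ∧ ∀ p : P,
      p ∈ OmegaOnePreserved P ∧ p ∈ MartinHolds P Om1) ∧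
    (MartinFor Om1 ↔ MAAlephOne) ∧
    (MAAlephOne → ∀ α : Ordinal.{0}, 1 < α → α < Ordinal.omega 1 →
      ¬ ∃ (B : Type) (_ : BooleanAlgebra B), PropP B ∧ CardSeq B (Cardinal.aleph 1) α) := by
  refine ⟨?_, ?_, CountableLengthMA.result⟩
  · obtain ⟨P, i, h1, h2⟩ := Pool.Agent.W910.FC.exists_forcing
    exact ⟨P, i, h1, fun p => ⟨(h2 p).1, (h2 p).2.1⟩⟩
  · rw [martinFor_om1_iff]
    constructor
    · intro h P _ _ hc D hD hd
      exact h P (fun A hA => by
        by_contra hcon
        obtain ⟨p, hp, q, hq, hne, hr⟩ := hc A hcon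
        exact hA p hp q hq hne hr) D hD hd
    · intro h P _ _ hc D hD hd
      exact h P (fun A hA => by
        by_contra hcon
        exact hA (hc A fun p hp q hq hne hr => hcon ⟨p, hp, q, hq, hne, hr⟩)) D hD hd

end Pool.Agent.Results.MP_0eabd7_lc.ConsistentlyNone
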