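import Mathlib
import Pool.Agent.W876.Cut.Seq2

set_option autoImplicit false

/-!
# MP_0eabd7_lc, Q1: the clopen algebra of `ω₁ + 1` has property (P) and the cardinal sequence
`⟨ℵ₁, ℵ₁, …, 1⟩` of length `ω₁`
-/

namespace Pool.Agent.Results.MP_0eabd7_lc.IntervalAlgebra

open Cardinal Pool.Agent.W876.Cut

/-- There is (in ZFC) a Boolean algebra with property (P) whose cardinal sequence is
`⟨ℵ₁, ℵ₁, …, 1⟩` of length `ω₁`. -/
theorem result : ∃ (B : Type) (_ : BooleanAlgebra B),
    PropP B ∧ CardSeq B (Cardinal.aleph 1) (Ordinal.omega.{0} 1) := by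
  refine ⟨CO, inferInstance, propP_co, ?_⟩
  have h := cardSeq_co
  rw [Cardinal.ord_aleph] at h
  exact h

end Pool.Agent.Results.MP_0eabd7_lc.IntervalAlgebra
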